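import Pool.Agent.Helper92.TGX.GoalsC3

/-!
# Project TGX, packet CMPF (two extensions of a field)
-/

set_option autoImplicit false

open scoped TensorProduct

namespace Pool.Agent.Helper81.TGX.CMPF

theorem t : Pool.Agent.Helper92.TGX.CMPF := by
  intro K F F' _ _ _ _ _
  have hnt : Nontrivial (F ⊗[K] F') := inferInstance
  obtain ⟨m, hm⟩ := Ideal.exists_maximal (F ⊗[K] F')
  let _ : Field ((F ⊗[K] F') ⧸ m) := Ideal.Quotient.field m
  refine ⟨AlgebraicClosure ((F ⊗[K] F') ⧸ m), inferInstance, inferInstance, inferInstance,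
    ⟨?_⟩, ⟨?_⟩⟩
  · exact ((IsScalarTower.toAlgHom K ((F ⊗[K] F') ⧸ m)
      (AlgebraicClosure ((F ⊗[K] F') ⧸ m))).comp (Ideal.Quotient.mkₐ K m)).comp
        Algebra.TensorProduct.includeLeft
  · exact ((IsScalarTower.toAlgHom K ((F ⊗[K] F') ⧸ m)
      (AlgebraicClosure ((F ⊗[K] F') ⧸ m))).comp (Ideal.Quotient.mkₐ K m)).comp
        Algebra.TensorProduct.includeRight

end Pool.Agent.Helper81.TGX.CMPF
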